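import Pool.Agent.H32.FreeDDC

set_option autoImplicit false

namespace Pool.Agent.Results.MP_db30a9_co.Lower

open Pool.Agent.H32.FreeDDC

/-- For every `n ≥ 2` and every `d` the free group of rank `n` has a distinct difference
configuration of diameter at most `d` with at least `c (2n-1)^(d/3)` elements, `c = c(n) > 0`. -/
theorem result (n : ℕ) (hn : 2 ≤ n) : ∃ c : ℝ, 0 < c ∧ ∀ d : ℕ,
    ∃ D : Finset (FreeGroup (Fin n)), IsDDC D ∧
      (∀ g ∈ D, ∀ h ∈ D, FreeGroup.norm (g⁻¹ * h) ≤ d) ∧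
      c * (2 * n - 1 : ℝ) ^ ((d : ℝ) / 3) ≤ D.card := by
  obtain ⟨N, hN⟩ : ∃ N, N + 1 = 2 * n := ⟨2 * n - 1, by omega⟩
  have e : Fin (N + 1) ≃ Fin n × Bool := Fintype.equivOfCardEq (by simp; omega)
  have hN' : (2 * n - 1 : ℝ) = N := by
    have : ((N + 1 : ℕ) : ℝ) = (2 * n : ℕ) := by rw [hN]
    push_cast at this; linarith
  have h1 : (1 : ℝ) ≤ N := by exact_mod_cast (by omega : 1 ≤ N)
  rw [hN']
  refine ⟨1 / (4 * N ^ 7), by positivity, fun d => ?_⟩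
  have hb : (N : ℝ) ^ ((d : ℝ) / 3) ≤ N ^ (2 * ((d - 16) / 6)) * N ^ 7 := by
    rw [← pow_add, ← Real.rpow_natCast]
    refine Real.rpow_le_rpow_of_exponent_le h1 ?_
    rw [div_le_iff₀ (by norm_num)]
    exact_mod_cast (by omega : d ≤ (2 * ((d - 16) / 6) + 7) * 3)
  have key : ∀ k : ℕ, N ^ (2 * ((d - 16) / 6)) ≤ 4 * k →
      1 / (4 * (N : ℝ) ^ 7) * N ^ ((d : ℝ) / 3) ≤ k := by
    intro k hk
    have : (N : ℝ) ^ (2 * ((d - 16) / 6)) ≤ 4 * k := by exact_mod_cast hk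
    rw [div_mul_eq_mul_div, div_le_iff₀ (by positivity)]
    nlinarith [mul_le_mul_of_nonneg_right this (show (0 : ℝ) ≤ N ^ 7 by positivity)]
  by_cases hd : d < 16
  · refine ⟨{1}, fun g hg h hh _ _ _ _ n1 => ?_, by simp, key _ ?_⟩
    · rw [Finset.mem_singleton] at hg hh
      exact absurd (hg.trans hh.symm) n1
    · rw [show d - 16 = 0 by omega]; simp
  · obtain ⟨D, h2, h3, h4⟩ := core e ⟨0, by omega⟩ ⟨1, by omega⟩ (by simp) (by omega)
      ((d - 16) / 6)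
    refine ⟨D, h2, fun g hg h hh => (FreeGroup.norm_mul_le _ _).trans ?_, key _ h4⟩
    rw [FreeGroup.norm_inv_eq]
    have := h3 g hg
    have := h3 h hh
    omega

end Pool.Agent.Results.MP_db30a9_co.Lower
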